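import Pool.Agent.R745.CDX.Defs

/-! `X_final 5`: scaled data and positivity of multiaffine functions (helper567) -/

set_option autoImplicit false

namespace R745CDX

namespace XF5

theorem seg (g : ℝ → ℝ) (hg : ∀ u, g u = g 0 + (g 1 - g 0) * u) {e s t u : ℝ} (h1 : s ≤ u)
    (h2 : u ≤ t) (h3 : e ≤ g s) (h4 : e ≤ g t) : e ≤ g u := by
  rw [hg] at h3 h4 ⊢
  rcases le_total 0 (g 1 - g 0) with h | h
  · have := mul_le_mul_of_nonneg_left h1 h
    linarith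
  · have := mul_le_mul_of_nonpos_left h2 h
    linarith

/-- the vertices of a simplex -/
def VA (c k : ℝ) (p : ℝ → ℝ → ℝ → ℝ → ℝ → Prop) : Prop :=
  p 0 0 0 0 0 ∧ p c 0 0 0 0 ∧ p c c 0 0 0 ∧ p 0 0 c 0 0 ∧ p 0 0 c c 0 ∧ p 0 0 c 0 (c / k)

/-- end points -/
def V2 (a b : ℝ) (p : ℝ → Prop) : Prop := p a ∧ p b

theorem simp5 (g : ℝ → ℝ → ℝ → ℝ → ℝ → ℝ) (hg : ∀ s a P x u, g s a P x u =
    g 0 0 0 0 0 + (g 1 0 0 0 0 - g 0 0 0 0 0) * s + (g 0 1 0 0 0 - g 0 0 0 0 0) * a +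
    (g 0 0 1 0 0 - g 0 0 0 0 0) * P + (g 0 0 0 1 0 - g 0 0 0 0 0) * x +
    (g 0 0 0 0 1 - g 0 0 0 0 0) * u) {e c k s a P x u : ℝ} (hc : 0 < c) (hk : 0 < k)
    (ha : 0 ≤ a) (has : a ≤ s) (hx : 0 ≤ x) (hu : 0 ≤ u) (hP : x + k * u ≤ P) (hcc : s + P ≤ c)
    (H : VA c k fun s a P x u => e ≤ g s a P x u) : e ≤ g s a P x u := by
  obtain ⟨v0, v1, v2, v3, v4, v5⟩ := H
  rw [hg s a P x u]
  rw [hg c 0 0 0 0] at v1
  rw [hg c c 0 0 0] at v2
  rw [hg 0 0 c 0 0] at v3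
  rw [hg 0 0 c c 0] at v4
  rw [hg 0 0 c 0 (c / k)] at v5
  set G0 := g 0 0 0 0 0
  set G1 := g 1 0 0 0 0 - G0
  set G2 := g 0 1 0 0 0 - G0
  set G3 := g 0 0 1 0 0 - G0
  set G4 := g 0 0 0 1 0 - G0
  set G5 := g 0 0 0 0 1 - G0
  have w0 : 0 ≤ (c - s - P) * (G0 - e) := mul_nonneg (by linarith) (by linarith)
  have w1 : 0 ≤ (s - a) * (G0 + G1 * c - e) := mul_nonneg (by linarith) (by linarith)
  have w2 : 0 ≤ a * (G0 + G1 * c + G2 * c - e) := mul_nonneg ha (by linarith)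
  have w3 : 0 ≤ (P - x - k * u) * (G0 + G3 * c - e) := mul_nonneg (by linarith) (by linarith)
  have w4 : 0 ≤ x * (G0 + G3 * c + G4 * c - e) := mul_nonneg hx (by linarith)
  have w5 : 0 ≤ (k * u) * (G0 + G3 * c + G5 * (c / k) - e) :=
    mul_nonneg (by positivity) (by linarith)
  have e5 : (k * u) * (G5 * (c / k)) = c * (G5 * u) := by
    field_simp
  have key : 0 ≤ c * (G0 + G1 * s + G2 * a + G3 * P + G4 * x + G5 * u - e) := by
    have : c * (G0 + G1 * s + G2 * a + G3 * P + G4 * x + G5 * u - e) =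
        (c - s - P) * (G0 - e) + (s - a) * (G0 + G1 * c - e) +
        a * (G0 + G1 * c + G2 * c - e) + (P - x - k * u) * (G0 + G3 * c - e) +
        x * (G0 + G3 * c + G4 * c - e) + (k * u) * (G0 + G3 * c + G5 * (c / k) - e) := by
      have : (k * u) * (G0 + G3 * c + G5 * (c / k) - e) =
          (k * u) * (G0 + G3 * c - e) + (k * u) * (G5 * (c / k)) := by ring
      rw [this, e5]
      ring
    rw [this]
    linarith
  have := nonneg_of_mul_nonneg_right key hc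
  linarith

theorem box (G : ℝ → ℝ → ℝ → ℝ → ℝ → ℝ → ℝ → ℝ → ℝ → ℝ → ℝ → ℝ → ℝ → ℝ)
    (hm : ∀ m z w s a P x u t b R y v, G m z w s a P x u t b R y v =
      G 0 z w s a P x u t b R y v + (G 1 z w s a P x u t b R y v -
        G 0 z w s a P x u t b R y v) * m)
    (hz : ∀ m z w s a P x u t b R y v, G m z w s a P x u t b R y v =
      G m 0 w s a P x u t b R y v + (G m 1 w s a P x u t b R y v -
        G m 0 w s a P x u t b R y v) * z)
    (hw : ∀ m z w s a P x u t b R y v, G m z w s a P x u t b R y v =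
      G m z 0 s a P x u t b R y v + (G m z 1 s a P x u t b R y v -
        G m z 0 s a P x u t b R y v) * w)
    (hA : ∀ m z w s a P x u t b R y v, G m z w s a P x u t b R y v =
      G m z w 0 0 0 0 0 t b R y v +
      (G m z w 1 0 0 0 0 t b R y v - G m z w 0 0 0 0 0 t b R y v) * s +
      (G m z w 0 1 0 0 0 t b R y v - G m z w 0 0 0 0 0 t b R y v) * a +
      (G m z w 0 0 1 0 0 t b R y v - G m z w 0 0 0 0 0 t b R y v) * P +
      (G m z w 0 0 0 1 0 t b R y v - G m z w 0 0 0 0 0 t b R y v) * x +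
      (G m z w 0 0 0 0 1 t b R y v - G m z w 0 0 0 0 0 t b R y v) * u)
    (hB : ∀ m z w s a P x u t b R y v, G m z w s a P x u t b R y v =
      G m z w s a P x u 0 0 0 0 0 +
      (G m z w s a P x u 1 0 0 0 0 - G m z w s a P x u 0 0 0 0 0) * t +
      (G m z w s a P x u 0 1 0 0 0 - G m z w s a P x u 0 0 0 0 0) * b +
      (G m z w s a P x u 0 0 1 0 0 - G m z w s a P x u 0 0 0 0 0) * R +
      (G m z w s a P x u 0 0 0 1 0 - G m z w s a P x u 0 0 0 0 0) * y +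
      (G m z w s a P x u 0 0 0 0 1 - G m z w s a P x u 0 0 0 0 0) * v)
    {e z1 w1 c d m z w s a P x u t b R y v : ℝ} (hc : 0 < c) (hd : 0 < d)
    (m0 : 0 ≤ m) (m1 : m ≤ 1 / 9) (z0 : 1 ≤ z) (zz : z ≤ z1) (w0 : 1 ≤ w) (ww : w ≤ w1)
    (ha : 0 ≤ a) (has : a ≤ s) (hx : 0 ≤ x) (hu : 0 ≤ u) (hP : x + 2 * u ≤ P) (hcc : s + P ≤ c)
    (hb : 0 ≤ b) (hbt : b ≤ t) (hy : 0 ≤ y) (hv : 0 ≤ v) (hR : y + 3 * v ≤ R) (hdd : t + R ≤ d)
    (H : V2 0 (1 / 9) fun m => V2 1 z1 fun z => V2 1 w1 fun w => VA c 2 fun s a P x u =>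
      VA d 3 fun t b R y v => e ≤ G m z w s a P x u t b R y v) :
    e ≤ G m z w s a P x u t b R y v := by
  have LB : ∀ m z w s a P x u, (VA d 3 fun t b R y v => e ≤ G m z w s a P x u t b R y v) →
      e ≤ G m z w s a P x u t b R y v := fun m z w s a P x u h =>
    simp5 (fun t b R y v => G m z w s a P x u t b R y v)
      (fun t b R y v => hB m z w s a P x u t b R y v) hd (by norm_num) hb hbt hy hv hR hdd h
  have LA : ∀ m z w, (VA c 2 fun s a P x u => VA d 3 fun t b R y v =>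
      e ≤ G m z w s a P x u t b R y v) → e ≤ G m z w s a P x u t b R y v := fun m z w h =>
    simp5 (fun s a P x u => G m z w s a P x u t b R y v)
      (fun s a P x u => hA m z w s a P x u t b R y v) hc (by norm_num) ha has hx hu hP hcc
      ⟨LB _ _ _ _ _ _ _ _ h.1, LB _ _ _ _ _ _ _ _ h.2.1, LB _ _ _ _ _ _ _ _ h.2.2.1,
        LB _ _ _ _ _ _ _ _ h.2.2.2.1, LB _ _ _ _ _ _ _ _ h.2.2.2.2.1,
        LB _ _ _ _ _ _ _ _ h.2.2.2.2.2⟩
  have LW : ∀ m z, (V2 1 w1 fun w => VA c 2 fun s a P x u => VA d 3 fun t b R y v =>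
      e ≤ G m z w s a P x u t b R y v) → e ≤ G m z w s a P x u t b R y v := fun m z h =>
    seg (fun w => G m z w s a P x u t b R y v) (fun w => hw m z w s a P x u t b R y v) w0 ww
      (LA _ _ _ h.1) (LA _ _ _ h.2)
  have LZ : ∀ m, (V2 1 z1 fun z => V2 1 w1 fun w => VA c 2 fun s a P x u =>
      VA d 3 fun t b R y v => e ≤ G m z w s a P x u t b R y v) →
      e ≤ G m z w s a P x u t b R y v := fun m h =>
    seg (fun z => G m z w s a P x u t b R y v) (fun z => hz m z w s a P x u t b R y v) z0 zz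
      (LW _ _ h.1) (LW _ _ h.2)
  exact seg (fun m => G m z w s a P x u t b R y v) (fun m => hm m z w s a P x u t b R y v) m0 m1
      (LZ _ H.1) (LZ _ H.2)

theorem it {m z w s c c' : ℝ} (m0 : 0 ≤ m) (m1 : m ≤ 1 / 9) (hz : 0 ≤ z) (hs : 0 ≤ s)
    (hw0 : 0 ≤ w) (h : z * (1 - s * (m * w)) ≤ 1) (hw : w ≤ c) (hd : 0 < 1 - s * c / 9)
    (hc' : 1 ≤ c' * (1 - s * c / 9)) : z ≤ c' := by
  have h0 : m * w ≤ c / 9 := by
    have := mul_le_mul m1 hw hw0 (by norm_num)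
    linarith
  have h1 : s * (m * w) ≤ s * c / 9 := by
    have := mul_le_mul_of_nonneg_left h0 hs
    linarith
  have h2 : z * (1 - s * c / 9) ≤ 1 :=
    le_trans (mul_le_mul_of_nonneg_left (by linarith) hz) h
  by_contra hcon
  push Not at hcon
  have h4 := mul_lt_mul_of_pos_right hcon hd
  linarith

/-- scaled data -/
structure Sc (K L m z w s a P x u t b R y v : ℝ) : Prop where
  m0 : 0 < m
  m1 : m ≤ 1 / 9
  z2 : z ≤ 2
  w2 : w ≤ 2
  z0 : 0 < z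
  w0 : 0 < w
  J1 : z * (1 - 2 * (m * w)) ≤ 1
  J2 : w * (1 - m * z) ≤ 1
  J3 : 5 ≤ 2 * z + 3 * w - 6 * (m * (z * w))
  I1 : (s + P) * (1 - m * t - (L - 1) * (m * R)) ≤ 1
  I2 : (t + R) * (1 - m * s - (K - 1) * (m * P)) ≤ 1
  A2 : s + P ≤ 2
  B2 : t + R ≤ 2
  q3 : m * ((z - (K - 1) * u) * (y + v)) ≤ 1 / 9
  q4 : m * ((w - (L - 1) * v) * (x + u)) ≤ 1 / 9
  q5 : u * (1 - m * (3 * w + b + L * y)) ≤ 1 / 9
  q6 : v * (1 - m * (2 * z + a + K * x)) ≤ 1 / 9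
  ha : 0 ≤ a
  has : a ≤ s
  hx : 0 ≤ x
  hu : 0 ≤ u
  hP : x + 2 * u ≤ P
  hb : 0 ≤ b
  hbt : b ≤ t
  hy : 0 ≤ y
  hv : 0 ≤ v
  hR : y + 3 * v ≤ R
  F : -(2 * z + a + K * x) - (3 * w + b + L * y) +
    m * ((2 * z + a + K * x) * (3 * w + b + L * y)) +
    5 * ((1 - m * (2 * z + a + K * x)) * (w + b + y) +
      (1 - m * (3 * w + b + L * y)) * (z + a + x)) +
    (25 / 2 - 5 * L) * ((1 - m * (2 * z + a + K * x)) * v) +
    (25 / 2 - 5 * K) * ((1 - m * (3 * w + b + L * y)) * u) ≤ 0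

theorem Sc.zlow {K L m z w s a P x u t b R y v : ℝ} (h : Sc K L m z w s a P x u t b R y v) :
    1 ≤ z := by
  have := h.J3
  have := h.J2
  have hw2 : m * w ≤ 2 / 9 := by
    have := mul_le_mul h.m1 h.w2 h.w0.le (by norm_num)
    linarith
  have : 2 ≤ z * (2 - 3 * (m * w)) := by nlinarith [h.J3, h.J2]
  have h3 : 0 ≤ 3 * (m * w) := by have := h.m0; have := h.w0; positivity
  nlinarith [h.z0]

theorem Sc.wlow {K L m z w s a P x u t b R y v : ℝ} (h : Sc K L m z w s a P x u t b R y v) :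
    1 ≤ w := by
  have : 3 ≤ w * (3 - 2 * (m * z)) := by nlinarith [h.J3, h.J1]
  have h3 : 0 ≤ 2 * (m * z) := by have := h.m0; have := h.z0; positivity
  nlinarith [h.w0]

theorem Sc.zw {K L m z w s a P x u t b R y v : ℝ} (h : Sc K L m z w s a P x u t b R y v) :
    z ≤ 1356 / 1000 ∧ w ≤ 1180 / 1000 := by
  have j1 := h.J1
  have j2 : w * (1 - 1 * (m * z)) ≤ 1 := by rw [one_mul]; exact h.J2
  have w1 : w ≤ 1286 / 1000 := it h.m0.le h.m1 h.w0.le (by norm_num) h.z0.le j2 h.z2 (by norm_num)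
    (by norm_num)
  have z1 : z ≤ 1401 / 1000 := it h.m0.le h.m1 h.z0.le (by norm_num) h.w0.le j1 w1 (by norm_num)
    (by norm_num)
  have w2 : w ≤ 1185 / 1000 := it h.m0.le h.m1 h.w0.le (by norm_num) h.z0.le j2 z1 (by norm_num)
    (by norm_num)
  have z2 : z ≤ 1358 / 1000 := it h.m0.le h.m1 h.z0.le (by norm_num) h.w0.le j1 w2 (by norm_num)
    (by norm_num)
  have w3 : w ≤ 1178 / 1000 := it h.m0.le h.m1 h.w0.le (by norm_num) h.z0.le j2 z2 (by norm_num)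
    (by norm_num)
  have z3 : z ≤ 1355 / 1000 := it h.m0.le h.m1 h.z0.le (by norm_num) h.w0.le j1 w3 (by norm_num)
    (by norm_num)
  constructor <;> linarith

end XF5

end R745CDX
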