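import Pool.Agent.R567.CDX.G

/-! certificates for `X_final 5` (helper567) -/

set_option autoImplicit false

namespace R745CDX

namespace XF5

theorem vB0 : V2 0 (1 / 9) fun m => V2 1 (1356 / 1000) fun z => V2 1 (1180 / 1000) fun w =>
      VA (1355 / 1000) 2 fun s a P x u =>
      VA (1178 / 1000) 3 fun t b R y v => (1 / 10 : ℝ) ≤ G 0 3 (961 / 500) (137 / 200) (1149 / 125) 0 0 (259 / 500) 0 0 0 0 0 0 0
        m z w s a P x u t b R y v := by
  simp only [V2, VA, G]
  norm_num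

theorem vB1 : V2 0 (1 / 9) fun m => V2 1 (1356 / 1000) fun z => V2 1 (1180 / 1000) fun w =>
      VA (1355 / 1000) 2 fun s a P x u =>
      VA (1178 / 1000) 3 fun t b R y v => (1 / 10 : ℝ) ≤ G 1 3 (961 / 500) (137 / 200) (1149 / 125) 0 0 (259 / 500) 0 0 0 0 0 0 0
        m z w s a P x u t b R y v := by
  simp only [V2, VA, G]
  norm_num

theorem vC0 : V2 0 (1 / 9) fun m => V2 1 (1356 / 1000) fun z => V2 1 (1180 / 1000) fun w =>
      VA (1178 / 1000) 2 fun s a P x u =>
      VA (1355 / 1000) 3 fun t b R y v => (1 / 10 : ℝ) ≤ G 3 0 (259 / 1000) (391 / 1000) 0 (3679 / 500) (91 / 100) 0 0 0 0 0 0 0 0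
        m z w s a P x u t b R y v := by
  simp only [V2, VA, G]
  norm_num

theorem vC1 : V2 0 (1 / 9) fun m => V2 1 (1356 / 1000) fun z => V2 1 (1180 / 1000) fun w =>
      VA (1178 / 1000) 2 fun s a P x u =>
      VA (1355 / 1000) 3 fun t b R y v => (1 / 10 : ℝ) ≤ G 3 1 (259 / 1000) (391 / 1000) 0 (3679 / 500) (91 / 100) 0 0 0 0 0 0 0 0
        m z w s a P x u t b R y v := by
  simp only [V2, VA, G]
  norm_num


end XF5

end R745CDX
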