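import Pool.Agent.R567.CDX.G

/-! certificates for `X_final 5` (helper567) -/

set_option autoImplicit false

namespace R745CDX

namespace XF5

theorem v23 : V2 0 (1 / 9) fun m => V2 1 (1356 / 1000) fun z => V2 1 (1180 / 1000) fun w =>
      VB (1355 / 1000) 2 fun s a P x u =>
      VB (1178 / 1000) 3 fun t b R y v => (1 / 10 : ℝ) ≤ G 2 3 (191 / 200) (79 / 250) (35 / 2) (3323 / 1000) 0 0 0 0 0 0 0 0 0
        m z w s a P x u t b R y v := by
  simp only [V2, VB, G]
  norm_num

theorem v32 : V2 0 (1 / 9) fun m => V2 1 (1356 / 1000) fun z => V2 1 (1180 / 1000) fun w =>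
      VB (1178 / 1000) 2 fun s a P x u =>
      VB (1355 / 1000) 3 fun t b R y v => (1 / 10 : ℝ) ≤ G 3 2 (103 / 250) (3 / 8) (6297 / 500) (2873 / 500) (629 / 500) 0 0 0 0 0 0 0 0
        m z w s a P x u t b R y v := by
  simp only [V2, VB, G]
  norm_num

theorem v14 : V2 0 (1 / 9) fun m => V2 1 (1356 / 1000) fun z => V2 1 (1180 / 1000) fun w =>
      VB (15 / 10) 2 fun s a P x u =>
      VB (1) 3 fun t b R y v => (1 / 10 : ℝ) ≤ G 1 4 (561 / 250) (807 / 1000) (1131 / 200) (536 / 125) 0 0 0 0 0 0 0 0 0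
        m z w s a P x u t b R y v := by
  simp only [V2, VB, G]
  norm_num

theorem v41 : V2 0 (1 / 9) fun m => V2 1 (1356 / 1000) fun z => V2 1 (1180 / 1000) fun w =>
      VB (1) 2 fun s a P x u =>
      VB (15 / 10) 3 fun t b R y v => (1 / 10 : ℝ) ≤ G 4 1 0 (423 / 1000) (969 / 500) 0 (171 / 200) 0 0 0 0 0 0 0 0
        m z w s a P x u t b R y v := by
  simp only [V2, VB, G]
  norm_num


end XF5

end R745CDX
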