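import Pool.Agent.R567.CDX.G

/-! certificates for `X_final 5` (helper567) -/

set_option autoImplicit false

namespace R745CDX

namespace XF5

theorem v04a : V2 0 (1 / 9) fun m => V2 1 (1356 / 1000) fun z => V2 1 (1180 / 1000) fun w =>
      VA (17 / 10) 2 fun s a P x u =>
      VA (1233 / 1000) 3 fun t b R y v => (1 / 10 : ℝ) ≤ G 0 4 (663 / 200) (243 / 200) (21423 / 1000) 0 0 (72 / 25) (8083 / 500) 0 0 0 0 (493 / 500) (1233 / 1000)
        m z w s a P x u t b R y v := by
  simp only [V2, VA, G]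
  norm_num

theorem v04b : V2 0 (1 / 9) fun m => V2 1 (1356 / 1000) fun z => V2 1 (1180 / 1000) fun w =>
      VA (17 / 10) 2 fun s a P x u =>
      VA (1233 / 1000) 3 fun t b R y v => (1 / 10 : ℝ) ≤ G 0 4 (8617 / 1000) (1859 / 1000) (42993 / 1000) 0 0 0 0 (7 / 2) 0 0 0 (493 / 500) (1233 / 1000)
        m z w s a P x u t b R y v := by
  simp only [V2, VA, G]
  norm_num

theorem v40a : V2 0 (1 / 9) fun m => V2 1 (1356 / 1000) fun z => V2 1 (1180 / 1000) fun w =>
      VA (1233 / 1000) 2 fun s a P x u =>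
      VA (1698 / 1000) 3 fun t b R y v => (1 / 10 : ℝ) ≤ G 4 0 0 (259 / 1000) 0 (9121 / 500) (4147 / 1000) 0 0 0 (9503 / 500) 0 0 (493 / 500) (849 / 500)
        m z w s a P x u t b R y v := by
  simp only [V2, VA, G]
  norm_num

theorem v40b : V2 0 (1 / 9) fun m => V2 1 (1356 / 1000) fun z => V2 1 (1180 / 1000) fun w =>
      VA (1233 / 1000) 2 fun s a P x u =>
      VA (1698 / 1000) 3 fun t b R y v => (1 / 10 : ℝ) ≤ G 4 0 0 (959 / 1000) 0 (43963 / 1000) (15 / 2) 0 0 0 0 1 (10589 / 1000) (493 / 500) (849 / 500)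
        m z w s a P x u t b R y v := by
  simp only [V2, VA, G]
  norm_num


end XF5

end R745CDX
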