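import Pool.Agent.R567.CDX.VA
import Pool.Agent.R567.CDX.VB
import Pool.Agent.R567.CDX.VC
import Pool.Agent.R567.CDX.VD

/-! `X_final 5`: the cases (helper567) -/

set_option autoImplicit false

namespace R745CDX

namespace XF5

open Finset H825CD

theorem itB {m A t R f l d c' : ℝ} (m0 : 0 ≤ m) (m1 : m ≤ 1 / 9) (hA : 0 ≤ A) (ht : 0 ≤ t)
    (hR : 0 ≤ R) (h : A * (1 - m * t - l * (m * R)) ≤ 1) (hf : 0 ≤ f) (hf1 : t ≤ f * t)
    (hfl : l ≤ f) (hd : t + R ≤ d) (hpos : 0 < 1 - f * d / 9) (hc' : 1 ≤ c' * (1 - f * d / 9)) :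
    A ≤ c' := by
  have h0 : m * (t + R) ≤ d / 9 := by
    have := mul_le_mul m1 hd (by linarith) (by norm_num)
    linarith
  have h0' := mul_le_mul_of_nonneg_left h0 hf
  have h1 : l * (m * R) ≤ f * (m * R) := mul_le_mul_of_nonneg_right hfl (mul_nonneg m0 hR)
  have h2 : m * t ≤ m * (f * t) := mul_le_mul_of_nonneg_left hf1 m0
  have h3 : A * (1 - f * d / 9) ≤ 1 := by
    refine le_trans (mul_le_mul_of_nonneg_left ?_ hA) h
    nlinarith
  by_contra hcon
  push Not at hcon
  have h4 := mul_lt_mul_of_pos_right hcon hpos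
  linarith

section

variable {K L m z w s a P x u t b R y v : ℝ}

theorem Sc.R0 (h : Sc K L m z w s a P x u t b R y v) : 0 ≤ R := by
  linarith [h.hR, h.hy, h.hv]

theorem Sc.P0 (h : Sc K L m z w s a P x u t b R y v) : 0 ≤ P := by
  linarith [h.hP, h.hx, h.hu]

theorem Sc.t0 (h : Sc K L m z w s a P x u t b R y v) : 0 ≤ t := by
  linarith [h.hb, h.hbt]

theorem Sc.s0 (h : Sc K L m z w s a P x u t b R y v) : 0 ≤ s := by
  linarith [h.ha, h.has]

theorem Sc.SA (h : Sc K L m z w s a P x u t b R y v) (f c' : ℝ) {d : ℝ} (hf : 0 ≤ f)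
    (hf1 : t ≤ f * t)
    (hfl : L - 1 ≤ f) (hd : t + R ≤ d) (hpos : 0 < 1 - f * d / 9) (hc' : 1 ≤ c' * (1 - f * d / 9)) :
    s + P ≤ c' :=
  itB h.m0.le h.m1 (by linarith [h.s0, h.P0]) h.t0 h.R0 h.I1 hf hf1 hfl hd hpos hc'

theorem Sc.SB (h : Sc K L m z w s a P x u t b R y v) (f c' : ℝ) {d : ℝ} (hf : 0 ≤ f)
    (hf1 : s ≤ f * s)
    (hfl : K - 1 ≤ f) (hd : s + P ≤ d) (hpos : 0 < 1 - f * d / 9) (hc' : 1 ≤ c' * (1 - f * d / 9)) :
    t + R ≤ c' :=
  itB h.m0.le h.m1 (by linarith [h.t0, h.R0]) h.s0 h.P0 h.I2 hf hf1 hfl hd hpos hc'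

theorem Sc.b11 (h : Sc K L m z w s a P x u t b R y v) (hK : K ≤ 2) (hL : L ≤ 2) :
    s + P ≤ 1147 / 1000 ∧ t + R ≤ 1147 / 1000 := by
  have fa : t ≤ 1 * t := by linarith
  have fb : s ≤ 1 * s := by linarith
  have la : L - 1 ≤ 1 := by linarith
  have lb : K - 1 ≤ 1 := by linarith
  have a1 := h.SA 1 (1286 / 1000) (by norm_num) fa la h.B2 (by norm_num) (by norm_num)
  have b1 := h.SB 1 (1167 / 1000) (by norm_num) fb lb a1 (by norm_num) (by norm_num)
  have a2 := h.SA 1 (1149 / 1000) (by norm_num) fa la b1 (by norm_num) (by norm_num)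
  have b2 := h.SB 1 (1147 / 1000) (by norm_num) fb lb a2 (by norm_num) (by norm_num)
  have a3 := h.SA 1 (1147 / 1000) (by norm_num) fa la b2 (by norm_num) (by norm_num)
  exact ⟨a3, b2⟩

theorem Sc.b21 (h : Sc K L m z w s a P x u t b R y v) (hK : K ≤ 2) (hL : L ≤ 3) :
    s + P ≤ 1355 / 1000 ∧ t + R ≤ 1178 / 1000 := by
  have fa : t ≤ 2 * t := by linarith [h.t0]
  have fb : s ≤ 1 * s := by linarith
  have la : L - 1 ≤ 2 := by linarith
  have lb : K - 1 ≤ 1 := by linarith
  have b0 := h.SB 1 (1286 / 1000) (by norm_num) fb lb h.A2 (by norm_num) (by norm_num)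
  have a1 := h.SA 2 (1401 / 1000) (by norm_num) fa la b0 (by norm_num) (by norm_num)
  have b1 := h.SB 1 (1185 / 1000) (by norm_num) fb lb a1 (by norm_num) (by norm_num)
  have a2 := h.SA 2 (1358 / 1000) (by norm_num) fa la b1 (by norm_num) (by norm_num)
  have b2 := h.SB 1 (1178 / 1000) (by norm_num) fb lb a2 (by norm_num) (by norm_num)
  have a3 := h.SA 2 (1355 / 1000) (by norm_num) fa la b2 (by norm_num) (by norm_num)
  exact ⟨a3, b2⟩

theorem Sc.b12 (h : Sc K L m z w s a P x u t b R y v) (hK : K ≤ 3) (hL : L ≤ 2) :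
    s + P ≤ 1178 / 1000 ∧ t + R ≤ 1355 / 1000 := by
  have fa : t ≤ 1 * t := by linarith
  have fb : s ≤ 2 * s := by linarith [h.s0]
  have la : L - 1 ≤ 1 := by linarith
  have lb : K - 1 ≤ 2 := by linarith
  have b0 := h.SA 1 (1286 / 1000) (by norm_num) fa la h.B2 (by norm_num) (by norm_num)
  have a1 := h.SB 2 (1401 / 1000) (by norm_num) fb lb b0 (by norm_num) (by norm_num)
  have b1 := h.SA 1 (1185 / 1000) (by norm_num) fa la a1 (by norm_num) (by norm_num)
  have a2 := h.SB 2 (1358 / 1000) (by norm_num) fb lb b1 (by norm_num) (by norm_num)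
  have b2 := h.SA 1 (1178 / 1000) (by norm_num) fa la a2 (by norm_num) (by norm_num)
  have a3 := h.SB 2 (1355 / 1000) (by norm_num) fb lb b2 (by norm_num) (by norm_num)
  exact ⟨b2, a3⟩

theorem Sc.b31 (h : Sc K L m z w s a P x u t b R y v) (hK : K ≤ 2) (hL : L ≤ 4) :
    s + P ≤ 17 / 10 ∧ t + R ≤ 1233 / 1000 := by
  have fa : t ≤ 3 * t := by linarith [h.t0]
  have fb : s ≤ 1 * s := by linarith
  have la : L - 1 ≤ 3 := by linarith
  have lb : K - 1 ≤ 1 := by linarith
  have b0 := h.SB 1 (1286 / 1000) (by norm_num) fb lb h.A2 (by norm_num) (by norm_num)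
  have a1 := h.SA 3 (1751 / 1000) (by norm_num) fa la b0 (by norm_num) (by norm_num)
  have b1 := h.SB 1 (1242 / 1000) (by norm_num) fb lb a1 (by norm_num) (by norm_num)
  have a2 := h.SA 3 (1707 / 1000) (by norm_num) fa la b1 (by norm_num) (by norm_num)
  have b2 := h.SB 1 (1235 / 1000) (by norm_num) fb lb a2 (by norm_num) (by norm_num)
  have a3 := h.SA 3 (17 / 10) (by norm_num) fa la b2 (by norm_num) (by norm_num)
  have b3 := h.SB 1 (1233 / 1000) (by norm_num) fb lb a3 (by norm_num) (by norm_num)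
  exact ⟨a3, b3⟩

theorem Sc.b13 (h : Sc K L m z w s a P x u t b R y v) (hK : K ≤ 4) (hL : L ≤ 2) :
    s + P ≤ 1233 / 1000 ∧ t + R ≤ 1698 / 1000 := by
  have fa : t ≤ 1 * t := by linarith
  have fb : s ≤ 3 * s := by linarith [h.s0]
  have la : L - 1 ≤ 1 := by linarith
  have lb : K - 1 ≤ 3 := by linarith
  have b0 := h.SA 1 (1286 / 1000) (by norm_num) fa la h.B2 (by norm_num) (by norm_num)
  have a1 := h.SB 3 (1751 / 1000) (by norm_num) fb lb b0 (by norm_num) (by norm_num)
  have b1 := h.SA 1 (1242 / 1000) (by norm_num) fa la a1 (by norm_num) (by norm_num)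
  have a2 := h.SB 3 (1707 / 1000) (by norm_num) fb lb b1 (by norm_num) (by norm_num)
  have b2 := h.SA 1 (1235 / 1000) (by norm_num) fa la a2 (by norm_num) (by norm_num)
  have a3 := h.SB 3 (17 / 10) (by norm_num) fb lb b2 (by norm_num) (by norm_num)
  have b3 := h.SA 1 (1233 / 1000) (by norm_num) fa la a3 (by norm_num) (by norm_num)
  have a4 := h.SB 3 (1698 / 1000) (by norm_num) fb lb b3 (by norm_num) (by norm_num)
  exact ⟨b3, a4⟩

theorem fl {g : ℝ} (h1 : 1 / 10 ≤ g) (h2 : g ≤ 0) : False := by linarith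

theorem caseA (h : Sc K L m z w s a P x u t b R y v) (hK0 : 0 ≤ K) (hK : K ≤ 2) (hL0 : 0 ≤ L)
    (hL : L ≤ 2) : False := by
  obtain ⟨hc, hd⟩ := h.b11 hK hL
  refine fl (G_K hK0 hK
    (G_L hL0 hL (G_low h (by norm_num) (by norm_num) hc hd vA00)
      (G_low h (by norm_num) (by norm_num) hc hd vA02))
    (G_L hL0 hL (G_low h (by norm_num) (by norm_num) hc hd vA20)
      (G_low h (by norm_num) (by norm_num) hc hd vA22)))
    (G_le h (by norm_num) (by norm_num) (by norm_num) (by norm_num) (by norm_num) (by norm_num)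
      (by norm_num))

theorem caseB (h : Sc K 3 m z w s a P x u t b R y v) (hK0 : 0 ≤ K) (hK : K ≤ 1) : False := by
  obtain ⟨hc, hd⟩ := h.b21 (by linarith) le_rfl
  refine fl (G_K hK0 hK (G_low h (by norm_num) (by norm_num) hc hd vB0)
      (G_low h (by norm_num) (by norm_num) hc hd vB1))
    (G_le h (by norm_num) (by norm_num) (by norm_num) (by norm_num) (by norm_num) (by norm_num)
      (by norm_num))

theorem caseC (h : Sc 3 L m z w s a P x u t b R y v) (hL0 : 0 ≤ L) (hL : L ≤ 1) : False := by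
  obtain ⟨hc, hd⟩ := h.b12 le_rfl (by linarith)
  refine fl (G_L hL0 hL (G_low h (by norm_num) (by norm_num) hc hd vC0)
      (G_low h (by norm_num) (by norm_num) hc hd vC1))
    (G_le h (by norm_num) (by norm_num) (by norm_num) (by norm_num) (by norm_num) (by norm_num)
      (by norm_num))

theorem case04 (h : Sc 0 4 m z w s a P x u t b R y v) : False := by
  obtain ⟨hc, hd⟩ := h.b31 (by norm_num) le_rfl
  rcases le_total y (493 / 500) with hy | hy
  · refine fl (G_low h (by norm_num) (by norm_num) hc hd v04a)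
      (G_le h (by norm_num) (by norm_num) (by norm_num) (by norm_num) (by norm_num) (by norm_num)
      ?_)
    have : 0 ≤ m * ((493 / 500 - y) * a) :=
      mul_nonneg h.m0.le (mul_nonneg (by linarith) h.ha)
    linarith
  · refine fl (G_low h (by norm_num) (by norm_num) hc hd v04b)
      (G_le h (by norm_num) (by norm_num) (by norm_num) (by norm_num) (by norm_num) (by norm_num)
      ?_)
    linarith

theorem case40 (h : Sc 4 0 m z w s a P x u t b R y v) : False := by
  obtain ⟨hc, hd⟩ := h.b13 le_rfl (by norm_num)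
  rcases le_total x (493 / 500) with hy | hy
  · refine fl (G_low h (by norm_num) (by norm_num) hc hd v40a)
      (G_le h (by norm_num) (by norm_num) (by norm_num) (by norm_num) (by norm_num) (by norm_num)
      ?_)
    have : 0 ≤ m * ((493 / 500 - x) * b) :=
      mul_nonneg h.m0.le (mul_nonneg (by linarith) h.hb)
    linarith
  · refine fl (G_low h (by norm_num) (by norm_num) hc hd v40b)
      (G_le h (by norm_num) (by norm_num) (by norm_num) (by norm_num) (by norm_num) (by norm_num)
      ?_)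
    have : 0 ≤ m * ((x - 493 / 500) * (849 / 500 - b)) :=
      mul_nonneg h.m0.le (mul_nonneg (by linarith) (by linarith [h.hbt, h.R0]))
    linarith

theorem case23 (h : Sc 2 3 m z w s a P x u t b R y v) (hs : s = 0) (ht : t = 0) : False := by
  have ea : a = 0 := le_antisymm (by linarith [h.has]) h.ha
  have eb : b = 0 := le_antisymm (by linarith [h.hbt]) h.hb
  subst hs ht ea eb
  obtain ⟨hc, hd⟩ := h.b21 le_rfl le_rfl
  refine fl (G_lowB h (by norm_num) (by norm_num) (by linarith) (by linarith) v23)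
    (G_le h (by norm_num) (by norm_num) (by norm_num) (by norm_num) (by norm_num) (by norm_num)
      (by norm_num))

theorem case32 (h : Sc 3 2 m z w s a P x u t b R y v) (hs : s = 0) (ht : t = 0) : False := by
  have ea : a = 0 := le_antisymm (by linarith [h.has]) h.ha
  have eb : b = 0 := le_antisymm (by linarith [h.hbt]) h.hb
  subst hs ht ea eb
  obtain ⟨hc, hd⟩ := h.b12 le_rfl le_rfl
  refine fl (G_lowB h (by norm_num) (by norm_num) (by linarith) (by linarith) v32)
    (G_le h (by norm_num) (by norm_num) (by norm_num) (by norm_num) (by norm_num) (by norm_num)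
      (by norm_num))

theorem case14 (h : Sc 1 4 m z w s a P x u t b R y v) (hs : s = 0) (ht : t = 0) : False := by
  have ea : a = 0 := le_antisymm (by linarith [h.has]) h.ha
  have eb : b = 0 := le_antisymm (by linarith [h.hbt]) h.hb
  subst hs ht ea eb
  have b1 := h.SB 0 1 le_rfl (by norm_num) (by norm_num) h.A2 (by norm_num) (by norm_num)
  have a1 := h.SA 3 (15 / 10) (by norm_num) (by norm_num) (by norm_num) b1 (by norm_num)
    (by norm_num)
  refine fl (G_lowB h (by norm_num) (by norm_num) (by linarith) (by linarith) v14)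
    (G_le h (by norm_num) (by norm_num) (by norm_num) (by norm_num) (by norm_num) (by norm_num)
      (by norm_num))

theorem case41 (h : Sc 4 1 m z w s a P x u t b R y v) (hs : s = 0) (ht : t = 0) : False := by
  have ea : a = 0 := le_antisymm (by linarith [h.has]) h.ha
  have eb : b = 0 := le_antisymm (by linarith [h.hbt]) h.hb
  subst hs ht ea eb
  have b1 := h.SA 0 1 le_rfl (by norm_num) (by norm_num) h.B2 (by norm_num) (by norm_num)
  have a1 := h.SB 3 (15 / 10) (by norm_num) (by norm_num) (by norm_num) b1 (by norm_num)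
    (by norm_num)
  refine fl (G_lowB h (by norm_num) (by norm_num) (by linarith) (by linarith) v41)
    (G_le h (by norm_num) (by norm_num) (by norm_num) (by norm_num) (by norm_num) (by norm_num)
      (by norm_num))

end

end XF5

end R745CDX
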