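import Pool.Agent.R567.CDX.Base

/-! scaled data from `FinX 5` (helper567) -/

set_option autoImplicit false

namespace R745CDX

namespace XF5

open Finset H825CD

theorem swap {Q : ℕ} {m : ℝ} {k l K L : ℕ} {aj bj zj wj ai bi s zP t wP
    Z10 U01 U11 P01 P11 W10 V01 V11 R01 R11 p r : ℝ}
    (h : FinX Q m k l K L aj bj zj wj ai bi s zP t wP
      Z10 U01 U11 P01 P11 W10 V01 V11 R01 R11 p r) :
    FinX Q m l k L K bj aj wj zj bi ai t wP s zP
      W10 V01 V11 R01 R11 Z10 U01 U11 P01 P11 r p where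
  hm := h.hm
  hm0 := h.hm0
  hk := h.hl
  hl := h.hk
  hkl := by have := h.hkl; omega
  hKL := by
    rcases h.hKL with g | g
    · left; omega
    · exact Or.inr ⟨by have := g.1; omega, g.2.2, g.2.1⟩
  haj0 := h.hbj0
  hbj0 := h.haj0
  hai0 := h.hbi0
  hbi0 := h.hai0
  haj2 := h.hbj2
  hbj2 := h.haj2
  hai2 := h.hbi2
  hbi2 := h.hai2
  haj := h.hbj
  hbj := h.haj
  hJ1 := h.hJ2
  hJ2 := h.hJ1
  hJ3 := by have := h.hJ3; linarith
  hs := h.ht
  hzP := h.hwP
  ht := h.hs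
  hwP := h.hzP
  hai := h.hbi
  hbi := h.hai
  hI1 := h.hI2
  hI2 := h.hI1
  hZ10 := h.hW10
  hU01 := h.hV01
  hU11 := h.hV11
  hP01 := h.hR01
  hP11 := h.hR11
  hW10 := h.hZ10
  hV01 := h.hU01
  hV11 := h.hU11
  hR01 := h.hP01
  hR11 := h.hP11
  c1 := h.c3
  c2 := h.c4
  c3 := h.c1
  c4 := h.c2
  r1 := h.r2
  r2 := h.r1
  hp := h.hr
  hr := h.hp
  hp2 := h.hr2
  hr2 := h.hp2
  q1 := h.q2
  q2 := h.q1
  q3 := h.q4
  q4 := h.q3
  q5 := h.q6
  q6 := h.q5

theorem toSc {m : ℝ} {K L : ℕ} {aj bj zj wj ai bi s zP t wP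
    Z10 U01 U11 P01 P11 W10 V01 V11 R01 R11 p r : ℝ}
    (h : FinX 5 m 2 3 K L aj bj zj wj ai bi s zP t wP
      Z10 U01 U11 P01 P11 W10 V01 V11 R01 R11 p r)
    (V1 : p * (r + 10 * (W10 + (V01 + R01)) + 25 * (V11 + R11)) ≤ 1)
    (V2 : r * (p + 10 * (Z10 + (U01 + P01)) + 25 * (U11 + P11)) ≤ 1) :
    Sc K L m (zj / m) (wj / m) (s / m) (U01 / m) (zP / m) (P01 / m) (P11 / m)
      (t / m) (V01 / m) (wP / m) (R01 / m) (R11 / m) := by
  obtain ⟨z, rfl⟩ : ∃ z, zj = m * z := ⟨zj / m, by have := h.hm0; field_simp⟩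
  obtain ⟨w, rfl⟩ : ∃ w, wj = m * w := ⟨wj / m, by have := h.hm0; field_simp⟩
  obtain ⟨s', rfl⟩ : ∃ w, s = m * w := ⟨s / m, by have := h.hm0; field_simp⟩
  obtain ⟨a, rfl⟩ : ∃ w, U01 = m * w := ⟨U01 / m, by have := h.hm0; field_simp⟩
  obtain ⟨P, rfl⟩ : ∃ w, zP = m * w := ⟨zP / m, by have := h.hm0; field_simp⟩
  obtain ⟨x, rfl⟩ : ∃ w, P01 = m * w := ⟨P01 / m, by have := h.hm0; field_simp⟩
  obtain ⟨u, rfl⟩ : ∃ w, P11 = m * w := ⟨P11 / m, by have := h.hm0; field_simp⟩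
  obtain ⟨t', rfl⟩ : ∃ w, t = m * w := ⟨t / m, by have := h.hm0; field_simp⟩
  obtain ⟨b, rfl⟩ : ∃ w, V01 = m * w := ⟨V01 / m, by have := h.hm0; field_simp⟩
  obtain ⟨R, rfl⟩ : ∃ w, wP = m * w := ⟨wP / m, by have := h.hm0; field_simp⟩
  obtain ⟨y, rfl⟩ : ∃ w, R01 = m * w := ⟨R01 / m, by have := h.hm0; field_simp⟩
  obtain ⟨v, rfl⟩ : ∃ w, R11 = m * w := ⟨R11 / m, by have := h.hm0; field_simp⟩
  have m0 := h.hm0
  have mne : m ≠ 0 := m0.ne'
  simp only [mul_div_cancel_left₀ _ mne]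
  obtain ⟨hm, _, -, -, -, -, haj0, hbj0, -, -, haj2, hbj2, hai2, hbi2, haj, hbj, hJ1, hJ2, hJ3,
    hs, hzP, ht, hwP, hai, hbi, hI1, hI2, hZ10, hU01, hU11, hP01, hP11, hW10, hV01, hV11, hR01,
    hR11, c1, c2, c3, c4, r1, r2, hp, hr, hp2, hr2, -, -, q3, q4, q5, q6⟩ := h
  have hq : (qb 5 : ℝ) = 9 := by norm_num [qb]
  rw [hq] at hm q3 q4 q5 q6
  push_cast at haj hbj hJ3 c1 c2 c3 c4
  subst haj hbj
  have nn : ∀ {c : ℝ}, 0 ≤ m * c → 0 ≤ c := fun h => nonneg_of_mul_nonneg_right h m0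
  have dv : ∀ {c d : ℝ}, m * c ≤ m * d → c ≤ d := fun h => le_of_mul_le_mul_left h m0
  have hs := nn hs
  have hP := nn hzP
  have ht := nn ht
  have hR := nn hwP
  have ha := nn hU01
  have hx := nn hP01
  have hu := nn hP11
  have hb := nn hV01
  have hy := nn hR01
  have hv := nn hR11
  have hz0 : 0 < z := by
    by_contra hh
    have := mul_nonpos_of_nonneg_of_nonpos m0.le (not_lt.1 hh)
    linarith
  have hw0 : 0 < w := by
    by_contra hh
    have := mul_nonpos_of_nonneg_of_nonpos m0.le (not_lt.1 hh)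
    linarith
  have hK : (0 : ℝ) ≤ K := Nat.cast_nonneg K
  have hL : (0 : ℝ) ≤ L := Nat.cast_nonneg L
  have hKx : 0 ≤ (K : ℝ) * (m * P - m * x) :=
    mul_nonneg hK (by linarith)
  have hLy : 0 ≤ (L : ℝ) * (m * R - m * y) :=
    mul_nonneg hL (by linarith)
  have p0 : 0 ≤ 1 - 2 * (m * z) - m * a - K * (m * x) := by linarith
  have r0 : 0 ≤ 1 - 3 * (m * w) - m * b - L * (m * y) := by linarith
  have mz0 : 0 < m * z := mul_pos m0 hz0
  have mw0 : 0 < m * w := mul_pos m0 hw0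
  have mP0 : 0 ≤ m * P := hzP
  have mR0 : 0 ≤ m * R := hwP
  have g1 : 0 ≤ (1 - 2 * (m * z) - m * a - K * (m * x)) *
      (W10 + V11 + L * (m * v) - m * w) := mul_nonneg p0 (by linarith)
  have g2 : 0 ≤ (1 - 3 * (m * w) - m * b - L * (m * y)) *
      (Z10 + a * 0 + U11 + K * (m * u) - m * z) := mul_nonneg r0 (by linarith)
  have g3 : 0 ≤ (1 - 2 * (m * z) - m * a - K * (m * x)) * V11 := mul_nonneg p0 hV11
  have g4 : 0 ≤ (1 - 3 * (m * w) - m * b - L * (m * y)) * U11 := mul_nonneg r0 hU11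
  have V1' : (1 - 2 * (m * z) - m * a - K * (m * x)) *
      ((1 - 3 * (m * w) - m * b - L * (m * y)) + 10 * (W10 + (m * b + m * y)) +
        25 * (V11 + m * v)) ≤ 1 := by
    refine le_trans (mul_le_mul (by linarith) (by linarith) (by linarith) (by linarith)) V1
  have V2' : (1 - 3 * (m * w) - m * b - L * (m * y)) *
      ((1 - 2 * (m * z) - m * a - K * (m * x)) + 10 * (Z10 + (m * a + m * x)) +
        25 * (U11 + m * u)) ≤ 1 := by
    refine le_trans (mul_le_mul (by linarith) (by linarith) (by linarith) (by linarith)) V2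
  have e5 : 9 * ((m * u) * (1 - 3 * (m * w) - m * b - L * (m * y))) ≤ m := by
    refine le_trans ?_ q5
    refine mul_le_mul_of_nonneg_left ?_ (by norm_num)
    exact mul_le_mul (by linarith) (by linarith) r0 (by linarith)
  have e6 : 9 * ((m * v) * (1 - 2 * (m * z) - m * a - K * (m * x))) ≤ m := by
    refine le_trans ?_ q6
    refine mul_le_mul_of_nonneg_left ?_ (by norm_num)
    exact mul_le_mul (by linarith) (by linarith) p0 (by linarith)
  have e3 : 9 * ((m * z - (K - 1) * (m * u)) * (m * y + m * v)) ≤ m := by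
    refine le_trans ?_ q3
    refine mul_le_mul_of_nonneg_left ?_ (by norm_num)
    exact mul_le_mul_of_nonneg_right (by linarith) (by linarith)
  have e4 : 9 * ((m * w - (L - 1) * (m * v)) * (m * x + m * u)) ≤ m := by
    refine le_trans ?_ q4
    refine mul_le_mul_of_nonneg_left ?_ (by norm_num)
    exact mul_le_mul_of_nonneg_right (by linarith) (by linarith)
  have n1 := mul_nonneg mz0.le (show 0 ≤ 1 / 6 - m * w by linarith)
  have n2 := mul_nonneg mw0.le (show 0 ≤ 1 / 4 - m * z by linarith)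
  have n3 := mul_nonneg (show 0 ≤ m * s' + m * P by linarith) (show 0 ≤ 1 / 2 - bi + m * R by
    linarith)
  have n4 := mul_nonneg (show 0 ≤ m * t' + m * R by linarith) (show 0 ≤ 1 / 2 - ai + m * P by
    linarith)
  clear p0 r0 hKx hLy
  constructor
  · exact m0
  · linarith
  · apply dv
    push_cast at hJ1
    clear * - hJ1 n1 m0
    linarith
  · apply dv
    push_cast at hJ2
    clear * - hJ2 n2 m0
    linarith
  · exact hz0
  · exact hw0
  · apply dv
    push_cast at hJ1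
    clear * - hJ1
    linarith
  · apply dv
    push_cast at hJ2
    clear * - hJ2
    linarith
  · apply dv
    push_cast at hJ3
    clear * - hJ3
    linarith
  · apply dv
    subst hbi
    clear * - hI1
    linarith
  · apply dv
    subst hai
    clear * - hI2
    linarith
  · apply dv
    clear * - n3 hI1
    linarith
  · apply dv
    clear * - n4 hI2
    linarith
  · apply dv
    clear * - e3
    linarith
  · apply dv
    clear * - e4
    linarith
  · apply dv
    clear * - e5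
    linarith
  · apply dv
    clear * - e6
    linarith
  · exact ha
  · apply dv
    linarith
  · exact hx
  · exact hu
  · apply dv
    linarith
  · exact hb
  · apply dv
    linarith
  · exact hy
  · exact hv
  · apply dv
    linarith
  · apply dv
    clear * - V1' V2' g1 g2 g3 g4
    linarith

end XF5

end R745CDX
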