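import Pool.Agent.R567.CDX.Base

/-! the Lagrangian for `X_final 5` (helper567) -/

set_option autoImplicit false

namespace R745CDX

namespace XF5

/-- the Lagrangian -/
noncomputable def G (K L l1 l2 l3 l4 l5 l6 n1 n2 n3 n4 n5 e d m z w _s a _P x u _t b _R y v : ℝ) : ℝ :=
  (-(2 * z + a + K * x) - (3 * w + b + L * y) +
    m * ((2 * z + a + K * x) * (3 * w + b + L * y)) +
    5 * ((1 - m * (2 * z + a + K * x)) * (w + b + y) +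
      (1 - m * (3 * w + b + L * y)) * (z + a + x)) +
    (25 / 2 - 5 * L) * ((1 - m * (2 * z + a + K * x)) * v) +
    (25 / 2 - 5 * K) * ((1 - m * (3 * w + b + L * y)) * u)) +
  l1 * (w * (1 - m * z) - 1) + l2 * (5 - 2 * z - 3 * w + 6 * (m * (z * w))) +
  l3 * (m * ((z - (K - 1) * u) * (y + v)) - 1 / 9) +
  l4 * (m * ((w - (L - 1) * v) * (x + u)) - 1 / 9) +
  l5 * (u * (1 - m * (3 * w + b + L * y)) - 1 / 9) +
  l6 * (v * (1 - m * (2 * z + a + K * x)) - 1 / 9) +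
  (n1 * (m * ((y - e) * a)) + n2 * (e - y) + n3 * (m * ((x - e) * b)) + n4 * (e - x) +
    n5 * (m * ((e - x) * (d - b))))

theorem G_le {K L m z w s a P x u t b R y v : ℝ} (h : Sc K L m z w s a P x u t b R y v)
    {l1 l2 l3 l4 l5 l6 n1 n2 n3 n4 n5 e d : ℝ} (h1 : 0 ≤ l1) (h2 : 0 ≤ l2) (h3 : 0 ≤ l3)
    (h4 : 0 ≤ l4) (h5 : 0 ≤ l5) (h6 : 0 ≤ l6)
    (hn : n1 * (m * ((y - e) * a)) + n2 * (e - y) + n3 * (m * ((x - e) * b)) + n4 * (e - x) +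
    n5 * (m * ((e - x) * (d - b))) ≤ 0) :
    G K L l1 l2 l3 l4 l5 l6 n1 n2 n3 n4 n5 e d m z w s a P x u t b R y v ≤ 0 := by
  have a1 := mul_nonpos_of_nonneg_of_nonpos h1 (show w * (1 - m * z) - 1 ≤ 0 by linarith [h.J2])
  have a2 := mul_nonpos_of_nonneg_of_nonpos h2
    (show 5 - 2 * z - 3 * w + 6 * (m * (z * w)) ≤ 0 by linarith [h.J3])
  have a3 := mul_nonpos_of_nonneg_of_nonpos h3
    (show m * ((z - (K - 1) * u) * (y + v)) - 1 / 9 ≤ 0 by linarith [h.q3])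
  have a4 := mul_nonpos_of_nonneg_of_nonpos h4
    (show m * ((w - (L - 1) * v) * (x + u)) - 1 / 9 ≤ 0 by linarith [h.q4])
  have a5 := mul_nonpos_of_nonneg_of_nonpos h5
    (show u * (1 - m * (3 * w + b + L * y)) - 1 / 9 ≤ 0 by linarith [h.q5])
  have a6 := mul_nonpos_of_nonneg_of_nonpos h6
    (show v * (1 - m * (2 * z + a + K * x)) - 1 / 9 ≤ 0 by linarith [h.q6])
  have a7 := h.F
  unfold G
  linarith

theorem G_low {K L l1 l2 l3 l4 l5 l6 n1 n2 n3 n4 n5 f g : ℝ}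
    {e c d m z w s a P x u t b R y v : ℝ}
    (h : Sc K L m z w s a P x u t b R y v) (hc : 0 < c) (hd : 0 < d)
    (hcc : s + P ≤ c) (hdd : t + R ≤ d)
    {K' L' : ℝ}
    (H : V2 0 (1 / 9) fun m => V2 1 (1356 / 1000) fun z => V2 1 (1180 / 1000) fun w =>
      VA c 2 fun s a P x u =>
      VA d 3 fun t b R y v => e ≤ G K' L' l1 l2 l3 l4 l5 l6 n1 n2 n3 n4 n5 f g
        m z w s a P x u t b R y v) :
    e ≤ G K' L' l1 l2 l3 l4 l5 l6 n1 n2 n3 n4 n5 f g m z w s a P x u t b R y v :=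
  box (G K' L' l1 l2 l3 l4 l5 l6 n1 n2 n3 n4 n5 f g)
    (fun _ _ _ _ _ _ _ _ _ _ _ _ _ => by unfold G; ring)
    (fun _ _ _ _ _ _ _ _ _ _ _ _ _ => by unfold G; ring)
    (fun _ _ _ _ _ _ _ _ _ _ _ _ _ => by unfold G; ring)
    (fun _ _ _ _ _ _ _ _ _ _ _ _ _ => by unfold G; ring)
    (fun _ _ _ _ _ _ _ _ _ _ _ _ _ => by unfold G; ring)
    hc hd h.m0.le h.m1 h.zlow h.zw.1 h.wlow h.zw.2 h.ha h.has h.hx h.hu h.hP hcc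
    h.hb h.hbt h.hy h.hv h.hR hdd H

theorem G_K {L l1 l2 l3 l4 l5 l6 n1 n2 n3 n4 n5 f g : ℝ}
    {e m z w s a P x u t b R y v K k0 k1 : ℝ} (h0 : k0 ≤ K) (h1 : K ≤ k1)
    (H0 : e ≤ G k0 L l1 l2 l3 l4 l5 l6 n1 n2 n3 n4 n5 f g m z w s a P x u t b R y v)
    (H1 : e ≤ G k1 L l1 l2 l3 l4 l5 l6 n1 n2 n3 n4 n5 f g m z w s a P x u t b R y v) :
    e ≤ G K L l1 l2 l3 l4 l5 l6 n1 n2 n3 n4 n5 f g m z w s a P x u t b R y v :=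
  seg (fun K => G K L l1 l2 l3 l4 l5 l6 n1 n2 n3 n4 n5 f g m z w s a P x u t b R y v)
    (fun _ => by simp only [G]; ring) h0 h1 H0 H1

theorem G_L {K l1 l2 l3 l4 l5 l6 n1 n2 n3 n4 n5 f g : ℝ}
    {e m z w s a P x u t b R y v L k0 k1 : ℝ} (h0 : k0 ≤ L) (h1 : L ≤ k1)
    (H0 : e ≤ G K k0 l1 l2 l3 l4 l5 l6 n1 n2 n3 n4 n5 f g m z w s a P x u t b R y v)
    (H1 : e ≤ G K k1 l1 l2 l3 l4 l5 l6 n1 n2 n3 n4 n5 f g m z w s a P x u t b R y v) :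
    e ≤ G K L l1 l2 l3 l4 l5 l6 n1 n2 n3 n4 n5 f g m z w s a P x u t b R y v :=
  seg (fun L => G K L l1 l2 l3 l4 l5 l6 n1 n2 n3 n4 n5 f g m z w s a P x u t b R y v)
    (fun _ => by simp only [G]; ring) h0 h1 H0 H1

/-- the vertices of a smaller simplex -/
def VB (c k : ℝ) (p : ℝ → ℝ → ℝ → ℝ → ℝ → Prop) : Prop :=
  p 0 0 0 0 0 ∧ p 0 0 c 0 0 ∧ p 0 0 c c 0 ∧ p 0 0 c 0 (c / k)

/-- a function not depending on `s, a` off `0` -/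
theorem G_lowB {K L l1 l2 l3 l4 l5 l6 : ℝ}
    {e c d m z w P x u R y v : ℝ}
    (h : Sc K L m z w 0 0 P x u 0 0 R y v) (hc : 0 < c) (hd : 0 < d)
    (hcc : P ≤ c) (hdd : R ≤ d)
    (H : V2 0 (1 / 9) fun m => V2 1 (1356 / 1000) fun z => V2 1 (1180 / 1000) fun w =>
      VB c 2 fun s a P x u =>
      VB d 3 fun t b R y v => e ≤ G K L l1 l2 l3 l4 l5 l6 0 0 0 0 0 0 0
        m z w s a P x u t b R y v) :
    e ≤ G K L l1 l2 l3 l4 l5 l6 0 0 0 0 0 0 0 m z w 0 0 P x u 0 0 R y v := by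
  have W : ∀ p : ℝ → ℝ → ℝ → ℝ → ℝ → Prop, ∀ c k : ℝ, VB c k p →
      VA c k (fun _ _ P x u => p 0 0 P x u) := by
    intro p c k h
    exact ⟨h.1, h.1, h.1, h.2.1, h.2.2.1, h.2.2.2⟩
  refine box (fun m z w _ _ P x u _ _ R y v =>
      G K L l1 l2 l3 l4 l5 l6 0 0 0 0 0 0 0 m z w 0 0 P x u 0 0 R y v)
    (fun _ _ _ _ _ _ _ _ _ _ _ _ _ => by unfold G; ring)
    (fun _ _ _ _ _ _ _ _ _ _ _ _ _ => by unfold G; ring)
    (fun _ _ _ _ _ _ _ _ _ _ _ _ _ => by unfold G; ring)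
    (fun _ _ _ _ _ _ _ _ _ _ _ _ _ => by unfold G; ring)
    (fun _ _ _ _ _ _ _ _ _ _ _ _ _ => by unfold G; ring)
    hc hd h.m0.le h.m1 h.zlow h.zw.1 h.wlow h.zw.2 h.ha h.has h.hx h.hu h.hP (by linarith)
    h.hb h.hbt h.hy h.hv h.hR (by linarith) ?_
  have Wb : ∀ m z w s a P x u, (VB d 3 fun t b R y v => e ≤ G K L l1 l2 l3 l4 l5 l6 0 0 0 0 0 0 0
        m z w s a P x u t b R y v) → VA d 3 fun _ _ R y v => e ≤ G K L l1 l2 l3 l4 l5 l6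
        0 0 0 0 0 0 0 m z w s a P x u 0 0 R y v := fun m z w s a P x u h => W _ _ _ h
  have Wa : ∀ m z w, (VB c 2 fun s a P x u => VB d 3 fun t b R y v => e ≤ G K L l1 l2 l3 l4 l5 l6
        0 0 0 0 0 0 0 m z w s a P x u t b R y v) → VA c 2 fun _ _ P x u => VA d 3 fun _ _ R y v =>
        e ≤ G K L l1 l2 l3 l4 l5 l6 0 0 0 0 0 0 0 m z w 0 0 P x u 0 0 R y v := by
    intro m z w h
    exact ⟨Wb _ _ _ _ _ _ _ _ h.1, Wb _ _ _ _ _ _ _ _ h.1, Wb _ _ _ _ _ _ _ _ h.1,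
      Wb _ _ _ _ _ _ _ _ h.2.1, Wb _ _ _ _ _ _ _ _ h.2.2.1, Wb _ _ _ _ _ _ _ _ h.2.2.2⟩
  exact ⟨⟨⟨Wa _ _ _ H.1.1.1, Wa _ _ _ H.1.1.2⟩, ⟨Wa _ _ _ H.1.2.1, Wa _ _ _ H.1.2.2⟩⟩,
    ⟨⟨Wa _ _ _ H.2.1.1, Wa _ _ _ H.2.1.2⟩, ⟨Wa _ _ _ H.2.2.1, Wa _ _ _ H.2.2.2⟩⟩⟩

end XF5

end R745CDX
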