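import Pool.Agent.R567.CDX.G

/-! certificates for `X_final 5` (helper567) -/

set_option autoImplicit false

namespace R745CDX

namespace XF5

theorem vA00 : V2 0 (1 / 9) fun m => V2 1 (1356 / 1000) fun z => V2 1 (1180 / 1000) fun w =>
      VA (1147 / 1000) 2 fun s a P x u =>
      VA (1147 / 1000) 3 fun t b R y v => (1 / 10 : ℝ) ≤ G 0 0 (191 / 200) (79 / 250) (1249 / 200) 0 0 0 0 0 0 0 0 0 0
        m z w s a P x u t b R y v := by
  simp only [V2, VA, G]
  norm_num

theorem vA02 : V2 0 (1 / 9) fun m => V2 1 (1356 / 1000) fun z => V2 1 (1180 / 1000) fun w =>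
      VA (1147 / 1000) 2 fun s a P x u =>
      VA (1147 / 1000) 3 fun t b R y v => (1 / 10 : ℝ) ≤ G 0 2 (191 / 200) (79 / 250) (1249 / 200) 0 0 0 0 0 0 0 0 0 0
        m z w s a P x u t b R y v := by
  simp only [V2, VA, G]
  norm_num

theorem vA20 : V2 0 (1 / 9) fun m => V2 1 (1356 / 1000) fun z => V2 1 (1180 / 1000) fun w =>
      VA (1147 / 1000) 2 fun s a P x u =>
      VA (1147 / 1000) 3 fun t b R y v => (1 / 10 : ℝ) ≤ G 2 0 (191 / 200) (79 / 250) (1249 / 200) 0 0 0 0 0 0 0 0 0 0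
        m z w s a P x u t b R y v := by
  simp only [V2, VA, G]
  norm_num

theorem vA22 : V2 0 (1 / 9) fun m => V2 1 (1356 / 1000) fun z => V2 1 (1180 / 1000) fun w =>
      VA (1147 / 1000) 2 fun s a P x u =>
      VA (1147 / 1000) 3 fun t b R y v => (1 / 10 : ℝ) ≤ G 2 2 (191 / 200) (79 / 250) (1249 / 200) 0 0 0 0 0 0 0 0 0 0
        m z w s a P x u t b R y v := by
  simp only [V2, VA, G]
  norm_num


end XF5

end R745CDX
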