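import Pool.Agent.R567.CDX.Case
import Pool.Agent.R567.CDX.Data

/-! `X_final 5` (helper567) -/

set_option autoImplicit false

namespace R745CDX

namespace XF5

open Finset H825CD

theorem fin23 {m : ℝ} {K L : ℕ} {aj bj zj wj ai bi s zP t wP
    Z10 U01 U11 P01 P11 W10 V01 V11 R01 R11 p r : ℝ}
    (h : FinX 5 m 2 3 K L aj bj zj wj ai bi s zP t wP
      Z10 U01 U11 P01 P11 W10 V01 V11 R01 R11 p r)
    (V1 : p * (r + 10 * (W10 + (V01 + R01)) + 25 * (V11 + R11)) ≤ 1)
    (V2 : r * (p + 10 * (Z10 + (U01 + P01)) + 25 * (U11 + P11)) ≤ 1) : False := by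
  have S := toSc h V1 V2
  have hK : (0 : ℝ) ≤ K := Nat.cast_nonneg K
  have hL : (0 : ℝ) ≤ L := Nat.cast_nonneg L
  have low : K + L ≤ 4 → False := by
    intro g
    have g' : (K ≤ 2 ∧ L ≤ 2) ∨ (L = 3 ∧ K ≤ 1) ∨ (K = 3 ∧ L ≤ 1) ∨ (K = 0 ∧ L = 4) ∨
        (K = 4 ∧ L = 0) := by omega
    rcases g' with ⟨e1, e2⟩ | ⟨e1, e2⟩ | ⟨e1, e2⟩ | ⟨e1, e2⟩ | ⟨e1, e2⟩
    · exact caseA S hK (by exact_mod_cast e1) hL (by exact_mod_cast e2)
    · have e : (L : ℝ) = 3 := by exact_mod_cast e1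
      rw [e] at S
      exact caseB S hK (by exact_mod_cast e2)
    · have e : (K : ℝ) = 3 := by exact_mod_cast e1
      rw [e] at S
      exact caseC S hL (by exact_mod_cast e2)
    · have e : (K : ℝ) = 0 := by exact_mod_cast e1
      have e' : (L : ℝ) = 4 := by exact_mod_cast e2
      rw [e, e'] at S
      exact case04 S
    · have e : (K : ℝ) = 4 := by exact_mod_cast e1
      have e' : (L : ℝ) = 0 := by exact_mod_cast e2
      rw [e, e'] at S
      exact case40 S
  rcases h.hKL with g | ⟨g, hs, ht⟩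
  · exact low (by omega)
  · have hs' : s / m = 0 := by rw [hs, zero_div]
    have ht' : t / m = 0 := by rw [ht, zero_div]
    have g' : K + L ≤ 4 ∨ K = 0 ∨ L = 0 ∨ (K = 1 ∧ L = 4) ∨ (K = 2 ∧ L = 3) ∨
        (K = 3 ∧ L = 2) ∨ (K = 4 ∧ L = 1) := by omega
    rcases g' with g' | g' | g' | ⟨e1, e2⟩ | ⟨e1, e2⟩ | ⟨e1, e2⟩ | ⟨e1, e2⟩
    · exact low g'
    · have h1 := h.hai
      have h2 := h.hai0
      rw [g', hs] at h1
      norm_num at h1
      linarith
    · have h1 := h.hbi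
      have h2 := h.hbi0
      rw [g', ht] at h1
      norm_num at h1
      linarith
    · have e : (K : ℝ) = 1 := by exact_mod_cast e1
      have e' : (L : ℝ) = 4 := by exact_mod_cast e2
      rw [e, e'] at S
      exact case14 S hs' ht'
    · have e : (K : ℝ) = 2 := by exact_mod_cast e1
      have e' : (L : ℝ) = 3 := by exact_mod_cast e2
      rw [e, e'] at S
      exact case23 S hs' ht'
    · have e : (K : ℝ) = 3 := by exact_mod_cast e1
      have e' : (L : ℝ) = 2 := by exact_mod_cast e2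
      rw [e, e'] at S
      exact case32 S hs' ht'
    · have e : (K : ℝ) = 4 := by exact_mod_cast e1
      have e' : (L : ℝ) = 1 := by exact_mod_cast e2
      rw [e, e'] at S
      exact case41 S hs' ht'

end XF5

theorem tX_final5 : X_final 5 := by
  intro m k l K L aj bj zj wj ai bi s zP t wP Z10 U01 U11 P01 P11 W10 V01 V11 R01 R11 p r h V1 V2
  have V1' : p * (r + 10 * (W10 + (V01 + R01)) + 25 * (V11 + R11)) ≤ 1 := by
    push_cast at V1
    linarith
  have V2' : r * (p + 10 * (Z10 + (U01 + P01)) + 25 * (U11 + P11)) ≤ 1 := by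
    push_cast at V2
    linarith
  have hk := h.hk
  have hl := h.hl
  have hkl := h.hkl
  have g : (k = 2 ∧ l = 3) ∨ (k = 3 ∧ l = 2) ∨ (k = 1 ∧ l = 1) ∨ (k = 1 ∧ l = 2) ∨
      (k = 1 ∧ l = 3) ∨ (k = 1 ∧ l = 4) ∨ (k = 2 ∧ l = 1) ∨ (k = 2 ∧ l = 2) ∨
      (k = 3 ∧ l = 1) ∨ (k = 4 ∧ l = 1) := by omega
  have ex : ∀ (k' l' : ℝ), (k : ℝ) = k' → (l : ℝ) = l' → 0 ≤ k' → 0 ≤ l' →
      k' + l' ≤ 5 → k' * l' - k' - l' ≤ 0 → False := by
    intro k' l' ek el hk0 hl0 h5 hq
    have hJ1 := h.hJ1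
    have hJ2 := h.hJ2
    have hJ3 := h.hJ3
    have ha := h.haj
    have hb := h.hbj
    have hm := h.hm0
    have ha0 := h.haj0
    have hb0 := h.hbj0
    rw [ek] at ha
    rw [el] at hb
    subst ha hb
    push_cast at hJ3
    have hz0 : 0 ≤ zj := by
      by_contra hh
      have := mul_nonpos_of_nonneg_of_nonpos hk0 (not_le.1 hh).le
      linarith
    have hw0 : 0 ≤ wj := by
      by_contra hh
      have := mul_nonpos_of_nonneg_of_nonpos hl0 (not_le.1 hh).le
      linarith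
    have t1 := mul_le_mul_of_nonneg_left hJ1 hk0
    have t2 := mul_le_mul_of_nonneg_left hJ2 hl0
    have t3 := mul_nonneg (sub_nonneg.2 hq) (mul_nonneg hz0 hw0)
    have t4 := mul_le_mul_of_nonneg_right h5 hm.le
    linarith
  rcases g with ⟨rfl, rfl⟩ | ⟨rfl, rfl⟩ | ⟨e1, e2⟩ | ⟨e1, e2⟩ | ⟨e1, e2⟩ | ⟨e1, e2⟩ | ⟨e1, e2⟩ |
    ⟨e1, e2⟩ | ⟨e1, e2⟩ | ⟨e1, e2⟩
  · exact XF5.fin23 h V1' V2'
  · exact XF5.fin23 (XF5.swap h) V2' V1'
  · exact ex 1 1 (by exact_mod_cast e1) (by exact_mod_cast e2) (by norm_num) (by norm_num)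
      (by norm_num) (by norm_num)
  · exact ex 1 2 (by exact_mod_cast e1) (by exact_mod_cast e2) (by norm_num) (by norm_num)
      (by norm_num) (by norm_num)
  · exact ex 1 3 (by exact_mod_cast e1) (by exact_mod_cast e2) (by norm_num) (by norm_num)
      (by norm_num) (by norm_num)
  · exact ex 1 4 (by exact_mod_cast e1) (by exact_mod_cast e2) (by norm_num) (by norm_num)
      (by norm_num) (by norm_num)
  · exact ex 2 1 (by exact_mod_cast e1) (by exact_mod_cast e2) (by norm_num) (by norm_num)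
      (by norm_num) (by norm_num)
  · exact ex 2 2 (by exact_mod_cast e1) (by exact_mod_cast e2) (by norm_num) (by norm_num)
      (by norm_num) (by norm_num)
  · exact ex 3 1 (by exact_mod_cast e1) (by exact_mod_cast e2) (by norm_num) (by norm_num)
      (by norm_num) (by norm_num)
  · exact ex 4 1 (by exact_mod_cast e1) (by exact_mod_cast e2) (by norm_num) (by norm_num)
      (by norm_num) (by norm_num)

end R745CDX
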